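import Pool.Agent.Helper37.SU.Stmts

set_option autoImplicit false

/-! The error of the algorithm. -/

namespace Pool.Agent.Helper37.SU

open MeasureTheory Finset
open scoped ENNReal Classical

theorem DEC_phi (h3 : ST_DC3) (h4 : ST_DC4) {b d : ℕ} (hb : 3 ≤ b) (L l' : ℕ) (hl : l' ≤ L)
    (B' : Bo d) (hB : B' ∈ lev b d l') (t : TT d) :
    Phi b B' t = ∑ l ∈ range (L + 2 * d + 1), ∑ B ∈ lev b d l, Hm b B B' * Phi b B t := by
  have h := (mem_lev.1 hB).1
  rw [h3 b d B' t (L + 2 * d) hb (by omega)]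
  refine Finset.sum_congr rfl fun l _ => ?_
  rw [sum_lev]
  refine Finset.sum_congr rfl fun s _ => ?_
  exact h4 b d s B' t hb

theorem st_DEC (h1 : ST_DC1) (h2 : ST_DC2) (h3 : ST_DC3) (h4 : ST_DC4) (h5 : ST_DC5) :
    ST_DEC := by
  intro b d m n₀ n₁ n x Λ c hb
  obtain ⟨L₁, hL₁⟩ := h1 b d Λ c hb
  refine ⟨max L₁ (max n₁ n), fun L hL t => ?_⟩
  have hL1 : L₁ ≤ L := le_trans (le_max_left _ _) hL
  have hL2 : n₁ ≤ L := le_trans (le_trans (le_max_left _ _) (le_max_right _ _)) hL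
  have hL3 : n ≤ L := le_trans (le_trans (le_max_right _ _) (le_max_right _ _)) hL
  set f := tp Λ c with hf
  -- the remainder
  have hg : ∀ t : TT d, f t - Sn b n₁ f t =
      ∑ l' ∈ Ioc n₁ L, ∑ B' ∈ lev b d l', zz b f B' * Phi b B' t := by
    intro t
    have e1 := hL₁ L hL1 t
    have e2 : range (L + 1) = range (n₁ + 1) ∪ Ioc n₁ L := by
      ext i
      simp only [mem_range, mem_union, mem_Ioc]
      omega
    have e3 : Disjoint (range (n₁ + 1)) (Ioc n₁ L) := by
      rw [Finset.disjoint_left]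
      intro i hi hi'
      simp only [mem_range, mem_Ioc] at hi hi'
      omega
    rw [e2, Finset.sum_union e3] at e1
    rw [e1, Sn, add_sub_cancel_left]
    refine Finset.sum_congr rfl fun l' _ => ?_
    rw [sum_lev]
    refine Finset.sum_congr rfl fun s _ => ?_
    exact h2 b d s f t hb
  have hA : f t - Aop b m n₀ n₁ n x f t = (f t - Sn b n₁ f t) -
      ∑ l ∈ Icc n₀ n, ∑ s ∈ shp d l,
        ((b : ℂ) ^ m)⁻¹ * ∑ p, (f (x p) - Sn b n₁ f (x p)) * DK b s (t - x p) := by
    rw [Aop]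
    ring
  -- the first part
  have hP : f t - Sn b n₁ f t = ∑ l ∈ range (L + 2 * d + 1), ∑ B ∈ lev b d l,
      (∑ l' ∈ Ioc n₁ L, ∑ B' ∈ lev b d l', Hm b B B' * zz b f B') * Phi b B t := by
    rw [hg t]
    have e : ∀ l' ∈ Ioc n₁ L, ∀ B' ∈ lev b d l', zz b f B' * Phi b B' t =
        ∑ l ∈ range (L + 2 * d + 1), ∑ B ∈ lev b d l,
          (Hm b B B' * zz b f B') * Phi b B t := by
      intro l' hl' B' hB'
      rw [DEC_phi h3 h4 hb L l' (mem_Ioc.1 hl').2 B' hB' t, Finset.mul_sum]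
      refine Finset.sum_congr rfl fun l _ => ?_
      rw [Finset.mul_sum]
      refine Finset.sum_congr rfl fun B _ => ?_
      ring
    rw [Finset.sum_congr rfl fun l' hl' => Finset.sum_congr rfl fun B' hB' => e l' hl' B' hB']
    have e' : ∀ l' ∈ Ioc n₁ L, (∑ B' ∈ lev b d l', ∑ l ∈ range (L + 2 * d + 1),
        ∑ B ∈ lev b d l, (Hm b B B' * zz b f B') * Phi b B t) =
        ∑ l ∈ range (L + 2 * d + 1), ∑ B ∈ lev b d l, ∑ B' ∈ lev b d l',
          (Hm b B B' * zz b f B') * Phi b B t := by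
      intro l' _
      rw [Finset.sum_comm]
      refine Finset.sum_congr rfl fun l _ => ?_
      rw [Finset.sum_comm]
    rw [Finset.sum_congr rfl e', Finset.sum_comm]
    refine Finset.sum_congr rfl fun l _ => ?_
    rw [Finset.sum_comm]
    refine Finset.sum_congr rfl fun B _ => ?_
    rw [Finset.sum_mul]
    refine Finset.sum_congr rfl fun l' _ => ?_
    rw [Finset.sum_mul]
  -- the second part
  have hQ : ∀ l, (∑ s ∈ shp d l,
      ((b : ℂ) ^ m)⁻¹ * ∑ p, (f (x p) - Sn b n₁ f (x p)) * DK b s (t - x p)) =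
      ∑ B ∈ lev b d l, (∑ l' ∈ Ioc n₁ L, ∑ B' ∈ lev b d l',
        (Ent b m x B B' + Hm b B B') * zz b f B') * Phi b B t := by
    intro l
    rw [sum_lev]
    refine Finset.sum_congr rfl fun s _ => ?_
    have e1 : ∀ p, (f (x p) - Sn b n₁ f (x p)) * DK b s (t - x p) = ∑ a ∈ gr b s,
        (∑ l' ∈ Ioc n₁ L, ∑ B' ∈ lev b d l',
          (DK b s (ptv b (s, a) - x p) * Phi b B' (x p)) * zz b f B') * Phi b (s, a) t := by
      intro p
      rw [h5 b d s (x p) t hb, Finset.mul_sum]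
      refine Finset.sum_congr rfl fun a _ => ?_
      rw [← mul_assoc]
      congr 1
      rw [hg (x p), Finset.sum_mul]
      refine Finset.sum_congr rfl fun l' _ => ?_
      rw [Finset.sum_mul]
      refine Finset.sum_congr rfl fun B' _ => ?_
      ring
    rw [Finset.sum_congr rfl fun p _ => e1 p, Finset.sum_comm, Finset.mul_sum]
    refine Finset.sum_congr rfl fun a _ => ?_
    rw [← Finset.sum_mul, ← mul_assoc]
    congr 1
    rw [Finset.sum_comm, Finset.mul_sum]
    refine Finset.sum_congr rfl fun l' _ => ?_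
    rw [Finset.sum_comm, Finset.mul_sum]
    refine Finset.sum_congr rfl fun B' _ => ?_
    rw [Ent, sub_add_cancel, ← Finset.sum_mul]
    ring
  rw [hA, Finset.sum_congr rfl fun l _ => hQ l, hP]
  have hI : (∑ l ∈ Icc n₀ n, ∑ B ∈ lev b d l, (∑ l' ∈ Ioc n₁ L, ∑ B' ∈ lev b d l',
      (Ent b m x B B' + Hm b B B') * zz b f B') * Phi b B t) =
      ∑ l ∈ range (L + 2 * d + 1), if n₀ ≤ l ∧ l ≤ n then
        ∑ B ∈ lev b d l, (∑ l' ∈ Ioc n₁ L, ∑ B' ∈ lev b d l',
          (Ent b m x B B' + Hm b B B') * zz b f B') * Phi b B t else 0 := by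
    rw [← Finset.sum_filter]
    refine Finset.sum_congr ?_ fun _ _ => rfl
    ext i
    simp only [mem_Icc, mem_filter, mem_range]
    omega
  rw [hI, ← Finset.sum_sub_distrib]
  refine Finset.sum_congr rfl fun l _ => ?_
  by_cases h : n₀ ≤ l ∧ l ≤ n
  · rw [if_pos h, ← Finset.sum_sub_distrib]
    refine Finset.sum_congr rfl fun B _ => ?_
    rw [← sub_mul, ← Finset.sum_sub_distrib]
    congr 1
    refine Finset.sum_congr rfl fun l' _ => ?_
    rw [← Finset.sum_sub_distrib]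
    refine Finset.sum_congr rfl fun B' _ => ?_
    rw [if_pos h]
    ring
  · rw [if_neg h, sub_zero]
    refine Finset.sum_congr rfl fun B _ => ?_
    congr 1
    refine Finset.sum_congr rfl fun l' _ => ?_
    refine Finset.sum_congr rfl fun B' _ => ?_
    rw [if_neg h]

end Pool.Agent.Helper37.SU
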