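import Pool.Agent.Helper37.SU.Stmts

set_option autoImplicit false

/-! The main estimate for the quadrature errors. -/

namespace Pool.Agent.Helper37.SU

open MeasureTheory Finset
open scoped ENNReal Classical

theorem EB_interp {M w qq k θ : ℝ} (hM : 0 ≤ M) (hw : 0 < w) (hqq : 0 ≤ qq) (hk : 0 ≤ k)
    (hθ : 0 < θ) (hθ2 : θ < 1 / 2) (h1 : M ≤ w * k) (h2 : M ≤ w * Real.sqrt qq * Real.sqrt k) :
    M ≤ w * qq ^ θ * k ^ (1 - θ) := by
  rcases hM.eq_or_lt with h0 | hpos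
  · rw [← h0]
    positivity
  · have hk0 : 0 < k := by
      rcases hk.eq_or_lt with h | h
      · rw [← h] at h1
        simp at h1
        linarith
      · exact h
    have e1 : M = M ^ (1 - 2 * θ) * M ^ (2 * θ) := by
      rw [← Real.rpow_add hpos]
      rw [show 1 - 2 * θ + 2 * θ = 1 by ring, Real.rpow_one]
    have e2 : M ^ (1 - 2 * θ) ≤ (w * k) ^ (1 - 2 * θ) :=
      Real.rpow_le_rpow hpos.le h1 (by linarith)
    have e3 : M ^ (2 * θ) ≤ (w * Real.sqrt qq * Real.sqrt k) ^ (2 * θ) :=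
      Real.rpow_le_rpow hpos.le h2 (by linarith)
    have e4 : (Real.sqrt qq) ^ (2 * θ) = qq ^ θ := by
      rw [Real.sqrt_eq_rpow, ← Real.rpow_mul hqq]
      congr 1
      ring
    have e5 : (Real.sqrt k) ^ (2 * θ) = k ^ θ := by
      rw [Real.sqrt_eq_rpow, ← Real.rpow_mul hk]
      congr 1
      ring
    calc M = M ^ (1 - 2 * θ) * M ^ (2 * θ) := e1
      _ ≤ (w * k) ^ (1 - 2 * θ) * (w * Real.sqrt qq * Real.sqrt k) ^ (2 * θ) :=
          mul_le_mul e2 e3 (by positivity) (by positivity)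
      _ = (w ^ (1 - 2 * θ) * w ^ (2 * θ)) * qq ^ θ * (k ^ (1 - 2 * θ) * k ^ θ) := by
          rw [Real.mul_rpow hw.le hk, Real.mul_rpow (by positivity) (Real.sqrt_nonneg _),
            Real.mul_rpow hw.le (Real.sqrt_nonneg _), e4, e5]
          ring
      _ = w * qq ^ θ * k ^ (1 - θ) := by
          rw [← Real.rpow_add hw, ← Real.rpow_add hk0,
            show 1 - 2 * θ + 2 * θ = 1 by ring, Real.rpow_one,
            show 1 - 2 * θ + θ = 1 - θ by ring]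

theorem st_EB (h1 : ST_R1) (h2 : ST_R2) (h3 : ST_R3) (h4 : ST_INT) : ST_EB := by
  intro b d u v θ ε C₁ hb hd hθ hθ2 hu hv hv2 hε hC₁
  have hb0 : 0 < b := by omega
  obtain ⟨CI, δ, hCI, hδ, hI⟩ := h4 u v θ hθ hθ2 hu hv hv2
  obtain ⟨CR1, hCR1, hR1⟩ := h1 b d hb
  obtain ⟨CR3, hCR3, hR3⟩ := h3 b d hb hd
  have hdr : (1 : ℝ) ≤ d := by exact_mod_cast hd
  set C4 : ℝ := ((d - 1 : ℕ) : ℝ) + C₁ with hC4
  have hC40 : 0 < C4 := by positivity
  set C2 : ℝ := (C4 + C₁) / δ with hC2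
  have hC20 : 0 < C2 := by positivity
  obtain ⟨CR2, hCR2, hR2⟩ := h2 b d ε (max C₁ C2) hb hd hε (lt_of_lt_of_le hC₁ (le_max_left _ _))
  set c1 : ℝ := 2 * CR3 * (1 + C₁) ^ (d - 1) with hc1
  have hc10 : 0 < c1 := by positivity
  have hlog2 : 0 < Real.log 2 := Real.log_pos (by norm_num)
  set δ' : ℝ := ε / d with hδ'
  have hδ'0 : 0 < δ' := by positivity
  set cQ : ℝ := (1 + C₁ / Real.log 2 * (1 / δ')) ^ d with hcQ
  have hcQ1 : 1 ≤ cQ := one_le_pow₀ (by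
    have : 0 ≤ C₁ / Real.log 2 * (1 / δ') := by positivity
    linarith)
  set CR : ℝ := max CR1 CR2 with hCR
  have hCR0 : 0 < CR := lt_of_lt_of_le hCR1 (le_max_left _ _)
  refine ⟨CI * (CR * cQ + c1), by positivity, ?_⟩
  intro n m l l' x z hn hx hlm hl hl' hm hm'
  have hn1 : (1 : ℝ) < n := by exact_mod_cast (by omega : 1 < n)
  have hn0 : (0 : ℝ) < n := by linarith
  have hnε : 1 ≤ (n : ℝ) ^ ε := Real.one_le_rpow hn1.le hε.le
  have hbm : (0 : ℝ) < (b : ℝ) ^ m := by positivity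
  have hbl : (0 : ℝ) < (b : ℝ) ^ l := by positivity
  have hbl' : (0 : ℝ) < (b : ℝ) ^ l' := by positivity
  set ρ : ℝ := (b : ℝ) ^ l / (b : ℝ) ^ m with hρ
  have hρ0 : 0 < ρ := by positivity
  have hρ1 : ρ ≤ 1 := by
    rw [hρ, div_le_one hbm]
    exact pow_le_pow_right₀ (by exact_mod_cast hb0) hlm
  set K : ℝ := (b : ℝ) ^ m / (b : ℝ) ^ l with hK
  set K' : ℝ := (b : ℝ) ^ m / (b : ℝ) ^ l' with hK'
  have hK0 : 0 < K := by positivity
  have hK'0 : 0 < K' := by positivity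
  have hK'n : K' ≤ (n : ℝ) ^ C₁ := by
    rw [hK', div_le_iff₀ hbl']
    exact hm'
  have hρn : (n : ℝ) ^ (-C₁) ≤ ρ := by
    rw [Real.rpow_neg hn0.le, hρ, le_div_iff₀ hbm, inv_mul_le_iff₀ (by positivity)]
    exact hm
  have hnd1 : (1 : ℝ) ≤ (n : ℝ) ^ (d - 1) := one_le_pow₀ hn1.le
  set P : ℝ := (n : ℝ) ^ (d - 1) + K with hP
  set P' : ℝ := (n : ℝ) ^ (d - 1) + K' with hP'
  have hP1 : 1 ≤ P := by linarith
  have hP'1 : 1 ≤ P' := by linarith
  have hPP1 : 1 ≤ P * P' := one_le_mul_of_one_le_of_one_le hP1 hP'1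
  have hPPθ : 1 ≤ (P * P') ^ θ := Real.one_le_rpow hPP1 hθ.le
  -- the bound for `m - l`
  have hQ : (1 + ((m - l : ℕ) : ℝ)) ^ d ≤ cQ * (n : ℝ) ^ ε := by
    have hml : ((m - l : ℕ) : ℝ) ≤ C₁ / Real.log 2 * Real.log n := by
      have h5 : ((m - l : ℕ) : ℝ) * Real.log b ≤ C₁ * Real.log n := by
        have h6 : Real.log ((b : ℝ) ^ (m - l)) ≤ Real.log ((n : ℝ) ^ C₁) := by
          refine Real.log_le_log (by positivity) ?_
          have e : (b : ℝ) ^ m = (b : ℝ) ^ (m - l) * (b : ℝ) ^ l := by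
            rw [← pow_add]
            congr 1
            omega
          rw [e] at hm
          exact le_of_mul_le_mul_right hm hbl
        rwa [Real.log_pow, Real.log_rpow hn0] at h6
      have h7 : Real.log 2 ≤ Real.log b :=
        Real.log_le_log (by norm_num) (by exact_mod_cast (by omega : 2 ≤ b))
      have h8 : ((m - l : ℕ) : ℝ) * Real.log 2 ≤ C₁ * Real.log n :=
        le_trans (mul_le_mul_of_nonneg_left h7 (by positivity)) h5
      rw [div_mul_eq_mul_div, le_div_iff₀ hlog2]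
      exact h8
    have hlogle : Real.log n ≤ (n : ℝ) ^ δ' / δ' := Real.log_le_rpow_div hn0.le hδ'0
    have hnδ : ((n : ℝ) ^ δ') ^ d = (n : ℝ) ^ ε := by
      rw [← Real.rpow_natCast, ← Real.rpow_mul hn0.le]
      congr 1
      rw [hδ']
      field_simp
    have hnδ1 : 1 ≤ (n : ℝ) ^ δ' := Real.one_le_rpow hn1.le hδ'0.le
    rw [← hnδ, hcQ, ← mul_pow]
    refine pow_le_pow_left₀ (by positivity) ?_ _
    have h9 : ((m - l : ℕ) : ℝ) ≤ C₁ / Real.log 2 * (1 / δ') * (n : ℝ) ^ δ' := by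
      calc ((m - l : ℕ) : ℝ) ≤ C₁ / Real.log 2 * Real.log n := hml
        _ ≤ C₁ / Real.log 2 * ((n : ℝ) ^ δ' / δ') :=
            mul_le_mul_of_nonneg_left hlogle (by positivity)
        _ = _ := by ring
    nlinarith
  -- the numbers of the interpolation lemma
  set D₀ : ℝ := (n : ℝ) ^ C2 with hD₀
  have hD₀1 : 1 ≤ D₀ := Real.one_le_rpow hn1.le hC20.le
  set D₁ : ℝ := c1 * (n : ℝ) ^ C4 with hD₁
  have hD₁0 : 0 ≤ D₁ := by positivity
  set A : ℝ := CR * ρ * (cQ * (n : ℝ) ^ ε) * (P * P') ^ θ with hA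
  have hA0 : 0 ≤ A := by positivity
  have hDD : D₁ * D₀ ^ (-δ) ≤ c1 * ρ := by
    have e : D₀ ^ (-δ) = (n : ℝ) ^ (-(C4 + C₁)) := by
      rw [hD₀, ← Real.rpow_mul hn0.le]
      congr 1
      rw [hC2]
      field_simp
    rw [hD₁, e, mul_assoc, ← Real.rpow_add hn0, show C4 + -(C4 + C₁) = -C₁ by ring]
    exact mul_le_mul_of_nonneg_left hρn hc10.le
  have hnC4 : (n : ℝ) ^ C4 = (n : ℝ) ^ (d - 1) * (n : ℝ) ^ C₁ := by
    rw [hC4, Real.rpow_add hn0, Real.rpow_natCast]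
  have hnC1 : 1 ≤ (n : ℝ) ^ C₁ := Real.one_le_rpow hn1.le hC₁.le
  have hlin : ∀ k : ℕ, (k : ℝ) ≤ C₁ * n → (1 + (k : ℝ)) ^ (d - 1) ≤
      (1 + C₁) ^ (d - 1) * (n : ℝ) ^ (d - 1) := by
    intro k hk
    rw [← mul_pow]
    refine pow_le_pow_left₀ (by positivity) ?_ _
    nlinarith
  have hrow : ∀ B ∈ lev b d l, ∑ B' ∈ lev b d l', ‖Ent b m x B B'‖ ≤ D₁ := by
    intro B hB
    refine ((hR3 m l l' x hx hlm).1 B hB).trans ?_
    rw [hD₁, hnC4, hc1]
    calc CR3 * (1 + (l' : ℝ)) ^ (d - 1) ≤ CR3 * ((1 + C₁) ^ (d - 1) * (n : ℝ) ^ (d - 1)) :=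
          mul_le_mul_of_nonneg_left (hlin l' hl') hCR3.le
      _ = (CR3 * (1 + C₁) ^ (d - 1) * (n : ℝ) ^ (d - 1)) * 1 := by ring
      _ ≤ (CR3 * (1 + C₁) ^ (d - 1) * (n : ℝ) ^ (d - 1)) * (2 * (n : ℝ) ^ C₁) :=
          mul_le_mul_of_nonneg_left (by linarith) (by positivity)
      _ = 2 * CR3 * (1 + C₁) ^ (d - 1) * ((n : ℝ) ^ (d - 1) * (n : ℝ) ^ C₁) := by ring
  have hcol : ∀ B' ∈ lev b d l', ∑ B ∈ lev b d l, ‖Ent b m x B B'‖ ≤ D₁ := by
    intro B' hB'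
    refine ((hR3 m l l' x hx hlm).2 B' hB').trans ?_
    rw [hD₁, hnC4, hc1]
    calc CR3 * (1 + (l : ℝ)) ^ (d - 1) * ρ * (1 + K')
        ≤ CR3 * ((1 + C₁) ^ (d - 1) * (n : ℝ) ^ (d - 1)) * 1 * (2 * (n : ℝ) ^ C₁) := by
          refine mul_le_mul ?_ (by linarith) (by positivity) (by positivity)
          refine mul_le_mul ?_ hρ1 hρ0.le (by positivity)
          exact mul_le_mul_of_nonneg_left (hlin l hl) hCR3.le
      _ = 2 * CR3 * (1 + C₁) ^ (d - 1) * ((n : ℝ) ^ (d - 1) * (n : ℝ) ^ C₁) := by ring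
  have hmax1 : (n : ℝ) ^ C₁ ≤ (n : ℝ) ^ (max C₁ C2) :=
    Real.rpow_le_rpow_of_exponent_le hn1.le (le_max_left _ _)
  have hmax2 : (n : ℝ) ^ C2 ≤ (n : ℝ) ^ (max C₁ C2) :=
    Real.rpow_le_rpow_of_exponent_le hn1.le (le_max_right _ _)
  have hmaxl : ∀ k : ℕ, (k : ℝ) ≤ C₁ * n → (k : ℝ) ≤ max C₁ C2 * n := fun k hk =>
    hk.trans (mul_le_mul_of_nonneg_right (le_max_left _ _) hn0.le)
  have hrest : ∀ S' : Finset (Bo d), ∀ T' : Finset (Bo d), S' ⊆ lev b d l → T' ⊆ lev b d l' →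
      (S'.card : ℝ) ≤ D₀ → (T'.card : ℝ) ≤ D₀ →
      ∑ i ∈ S', ∑ j ∈ T', ‖Ent b m x i j‖ ≤ A * ((S'.card : ℝ) * T'.card) ^ (1 - θ) := by
    intro S' T' hS' hT' hS'c hT'c
    have hE0 : 0 < CR * ρ * (cQ * (n : ℝ) ^ ε) := by positivity
    have hi := EB_interp (M := ∑ i ∈ S', ∑ j ∈ T', ‖Ent b m x i j‖)
      (w := CR * ρ * (cQ * (n : ℝ) ^ ε)) (qq := P * P') (k := (S'.card : ℝ) * T'.card) (θ := θ)
      (Finset.sum_nonneg fun _ _ => Finset.sum_nonneg fun _ _ => norm_nonneg _) hE0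
      (by positivity) (by positivity) hθ hθ2 ?_ ?_
    · exact hi
    · have e1 : ∑ i ∈ S', ∑ j ∈ T', ‖Ent b m x i j‖ ≤
          ∑ i ∈ S', ∑ j ∈ T', CR1 * ρ * (1 + ((m - l : ℕ) : ℝ)) ^ d :=
        Finset.sum_le_sum fun i hi => Finset.sum_le_sum fun j hj =>
          hR1 m l l' x hx hlm i (hS' hi) j (hT' hj)
      refine e1.trans ?_
      rw [Finset.sum_const, Finset.sum_const, nsmul_eq_mul, nsmul_eq_mul]
      calc (S'.card : ℝ) * ((T'.card : ℝ) * (CR1 * ρ * (1 + ((m - l : ℕ) : ℝ)) ^ d))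
          = (CR1 * ρ * (1 + ((m - l : ℕ) : ℝ)) ^ d) * ((S'.card : ℝ) * T'.card) := by ring
        _ ≤ (CR * ρ * (cQ * (n : ℝ) ^ ε)) * ((S'.card : ℝ) * T'.card) := by
            refine mul_le_mul_of_nonneg_right ?_ (by positivity)
            refine mul_le_mul ?_ hQ (by positivity) (by positivity)
            exact mul_le_mul_of_nonneg_right (le_max_left _ _) hρ0.le
    · have e2 := hR2 n m l l' x S' T' hn hx (hmaxl l hl) (hmaxl l' hl')
        (hm.trans (mul_le_mul_of_nonneg_right hmax1 hbl.le))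
        (hm'.trans (mul_le_mul_of_nonneg_right hmax1 hbl'.le)) hS' hT'
        (hS'c.trans hmax2) (hT'c.trans hmax2)
      refine e2.trans ?_
      refine mul_le_mul_of_nonneg_right ?_ (Real.sqrt_nonneg _)
      refine mul_le_mul_of_nonneg_right ?_ (Real.sqrt_nonneg _)
      calc CR2 * (n : ℝ) ^ ε * ρ ≤ CR * (n : ℝ) ^ ε * ρ := by
            refine mul_le_mul_of_nonneg_right ?_ hρ0.le
            exact mul_le_mul_of_nonneg_right (le_max_right _ _) (by positivity)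
        _ = (CR * ρ * (n : ℝ) ^ ε) * 1 := by ring
        _ ≤ (CR * ρ * (n : ℝ) ^ ε) * cQ := mul_le_mul_of_nonneg_left hcQ1 (by positivity)
        _ = _ := by ring
  have hfin := hI (Bo d) (Bo d) (lev b d l) (lev b d l') (Ent b m x) A D₀ D₁ z hA0 hD₀1 hD₁0
    hrest hrow hcol
  refine hfin.trans ?_
  have hlp : 0 ≤ lp v (lev b d l') z := by
    unfold lp
    positivity
  refine mul_le_mul_of_nonneg_right ?_ hlp
  calc CI * (A + D₁ * D₀ ^ (-δ)) ≤ CI * (A + c1 * ρ) := by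
        refine mul_le_mul_of_nonneg_left ?_ hCI.le
        linarith
    _ ≤ CI * (A + c1 * ρ * ((n : ℝ) ^ ε * (P * P') ^ θ)) := by
        refine mul_le_mul_of_nonneg_left ?_ hCI.le
        have h10 : 1 ≤ (n : ℝ) ^ ε * (P * P') ^ θ := one_le_mul_of_one_le_of_one_le hnε hPPθ
        have h11 : c1 * ρ * 1 ≤ c1 * ρ * ((n : ℝ) ^ ε * (P * P') ^ θ) :=
          mul_le_mul_of_nonneg_left h10 (by positivity)
        linarith
    _ = CI * (CR * cQ + c1) * (n : ℝ) ^ ε * ρ * (P * P') ^ θ := by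
        rw [hA]
        ring

end Pool.Agent.Helper37.SU
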