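import Pool.Agent.Helper37.SU.Stmts

set_option autoImplicit false

/-! Bounds for the blocks of the fractional integral. -/

namespace Pool.Agent.Helper37.SU

open MeasureTheory Finset
open scoped ENNReal Classical

/-- The power factor. -/
noncomputable def FKBq (r ξ : ℝ) : ℂ :=
  ((|ξ| ^ (-r) : ℝ) : ℂ) *
    Complex.exp (-(Complex.I * ((Real.pi / 2 * r * (if 0 < ξ then 1 else -1) : ℝ) : ℂ)))

/-- The multiplier. -/
noncomputable def FKBpsi (r : ℝ) (b : ℕ) (ξ : ℝ) : ℂ :=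
  FKBq r ξ * ((om (b * ξ) - om ((b : ℝ) ^ 2 * ξ) : ℝ) : ℂ)

theorem FKB_near (hom : ST_OM) {r : ℝ} {b : ℕ} (hb : 2 ≤ b) {ξ : ℝ}
    (hξ : |ξ| ≤ 1 / (4 * (b : ℝ) ^ 2)) : FKBpsi r b ξ = 0 := by
  obtain ⟨_, h1, _⟩ := hom
  have hb1 : (2 : ℝ) ≤ b := by exact_mod_cast hb
  have hb2 : (0 : ℝ) < (b : ℝ) ^ 2 := by positivity
  have e2 : |(b : ℝ) ^ 2 * ξ| ≤ 1 / 4 := by
    rw [abs_mul, abs_of_pos hb2]
    calc (b : ℝ) ^ 2 * |ξ| ≤ (b : ℝ) ^ 2 * (1 / (4 * (b : ℝ) ^ 2)) :=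
          mul_le_mul_of_nonneg_left hξ hb2.le
      _ = 1 / 4 := by field_simp
  have e1 : |(b : ℝ) * ξ| ≤ 1 / 4 := by
    refine le_trans ?_ e2
    rw [abs_mul, abs_mul, abs_of_pos hb2, abs_of_pos (by linarith : (0 : ℝ) < b)]
    refine mul_le_mul_of_nonneg_right ?_ (abs_nonneg _)
    nlinarith
  unfold FKBpsi
  rw [h1 _ e1, h1 _ e2]
  simp

theorem FKB_far (hom : ST_OM) {r : ℝ} {b : ℕ} (hb : 2 ≤ b) {ξ : ℝ}
    (hξ : 1 ≤ |ξ|) : FKBpsi r b ξ = 0 := by
  obtain ⟨_, _, h2, _⟩ := hom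
  have hb1 : (2 : ℝ) ≤ b := by exact_mod_cast hb
  have hb2 : (0 : ℝ) < (b : ℝ) ^ 2 := by positivity
  have e1 : 3 / 4 ≤ |(b : ℝ) * ξ| := by
    rw [abs_mul, abs_of_pos (by linarith : (0 : ℝ) < b)]
    nlinarith
  have e2 : 3 / 4 ≤ |(b : ℝ) ^ 2 * ξ| := by
    rw [abs_mul, abs_of_pos hb2]
    nlinarith
  unfold FKBpsi
  rw [h2 _ e1, h2 _ e2]
  simp

theorem FKB_smooth (hom : ST_OM) {r : ℝ} {b : ℕ} (hb : 2 ≤ b) :
    ContDiff ℝ 2 (FKBpsi r b) := by
  have hb1 : (2 : ℝ) ≤ b := by exact_mod_cast hb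
  have homd : ContDiff ℝ 2 om := hom.1.of_le (by norm_cast)
  have hcut : ContDiff ℝ 2 (fun ξ : ℝ => ((om (b * ξ) - om ((b : ℝ) ^ 2 * ξ) : ℝ) : ℂ)) := by
    refine Complex.ofRealCLM.contDiff.comp ?_
    exact (homd.comp (contDiff_const.mul contDiff_id)).sub
      (homd.comp (contDiff_const.mul contDiff_id))
  rw [contDiff_iff_contDiffAt]
  intro ξ
  by_cases h0 : ξ = 0
  · subst h0
    have hev : FKBpsi r b =ᶠ[nhds 0] fun _ => 0 := by
      have hpos : (0 : ℝ) < 1 / (4 * (b : ℝ) ^ 2) := by positivity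
      filter_upwards [Metric.ball_mem_nhds (0 : ℝ) hpos] with y hy
      refine FKB_near hom hb ?_
      rw [Metric.mem_ball, dist_zero_right, Real.norm_eq_abs] at hy
      exact hy.le
    exact (contDiffAt_const (c := (0 : ℂ))).congr_of_eventuallyEq hev
  · have hq : ContDiffAt ℝ 2 (FKBq r) ξ := by
      rcases lt_or_gt_of_ne h0 with hneg | hpos
      · have hev : FKBq r =ᶠ[nhds ξ] fun y => (((-y) ^ (-r) : ℝ) : ℂ) *
            Complex.exp (-(Complex.I * ((Real.pi / 2 * r * (-1) : ℝ) : ℂ))) := by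
          filter_upwards [Iio_mem_nhds hneg] with y hy
          have hy' : y < 0 := hy
          unfold FKBq
          rw [abs_of_neg hy', if_neg (by linarith)]
        refine ContDiffAt.congr_of_eventuallyEq ?_ hev
        refine ContDiffAt.mul ?_ contDiffAt_const
        refine Complex.ofRealCLM.contDiff.contDiffAt.comp ξ ?_
        exact ContDiffAt.rpow_const_of_ne contDiffAt_id.neg (by
          simpa using h0)
      · have hev : FKBq r =ᶠ[nhds ξ] fun y => ((y ^ (-r) : ℝ) : ℂ) *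
            Complex.exp (-(Complex.I * ((Real.pi / 2 * r * 1 : ℝ) : ℂ))) := by
          filter_upwards [Ioi_mem_nhds hpos] with y hy
          have hy' : 0 < y := hy
          unfold FKBq
          rw [abs_of_pos hy', if_pos hy']
        refine ContDiffAt.congr_of_eventuallyEq ?_ hev
        refine ContDiffAt.mul ?_ contDiffAt_const
        refine Complex.ofRealCLM.contDiff.contDiffAt.comp ξ ?_
        exact ContDiffAt.rpow_const_of_ne contDiffAt_id h0
    exact hq.mul hcut.contDiffAt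

theorem FKB_mult {r : ℝ} {b : ℕ} (hb : 2 ≤ b) (j : ℕ) (k : ℤ) :
    mult r k * ((dkc b (j + 2) k : ℝ) : ℂ) =
      ((((b : ℝ) ^ (j + 2)) ^ (-r) : ℝ) : ℂ) * FKBpsi r b ((k : ℝ) / ((b ^ (j + 2) : ℕ) : ℝ)) := by
  have hb1 : (2 : ℝ) ≤ b := by exact_mod_cast hb
  have hb0 : (0 : ℝ) < b := by linarith
  have hM : (0 : ℝ) < (b : ℝ) ^ (j + 2) := by positivity
  have hd : dkc b (j + 2) k = om ((k : ℝ) / (b : ℝ) ^ (j + 1)) - om ((k : ℝ) / (b : ℝ) ^ j) := by
    unfold dkc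
    rw [if_neg (by omega), if_neg (by omega)]
    rfl
  have e1 : (b : ℝ) * ((k : ℝ) / ((b ^ (j + 2) : ℕ) : ℝ)) = (k : ℝ) / (b : ℝ) ^ (j + 1) := by
    push_cast
    rw [pow_succ (b : ℝ) (j + 1)]
    field_simp
  have e2 : (b : ℝ) ^ 2 * ((k : ℝ) / ((b ^ (j + 2) : ℕ) : ℝ)) = (k : ℝ) / (b : ℝ) ^ j := by
    push_cast
    rw [pow_add (b : ℝ) j 2]
    field_simp
  unfold FKBpsi
  rw [e1, e2, ← hd, ← mul_assoc]
  by_cases hk : k = 0
  · subst hk
    have h0 : dkc b (j + 2) 0 = 0 := by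
      rw [hd]
      simp
    rw [h0]
    simp
  · congr 1
    have hkr : (k : ℝ) ≠ 0 := by exact_mod_cast hk
    unfold mult FKBq
    rw [if_neg hk, ← mul_assoc]
    congr 1
    · rw [← Complex.ofReal_mul]
      congr 1
      push_cast
      rw [abs_div, abs_of_pos hM, Real.div_rpow (abs_nonneg _) hM.le]
      have : ((b : ℝ) ^ (j + 2)) ^ (-r) ≠ 0 := (Real.rpow_pos_of_pos hM _).ne'
      field_simp
    · congr 4
      rcases lt_or_gt_of_ne hk with h | h
      · have h' : (k : ℝ) < 0 := by exact_mod_cast h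
        rw [Int.sign_eq_neg_one_of_neg h, if_neg (by
          rw [not_lt]
          exact (div_neg_of_neg_of_pos h' (by push_cast; exact hM)).le)]
        push_cast
        rfl
      · have h' : (0 : ℝ) < k := by exact_mod_cast h
        rw [Int.sign_eq_one_of_pos h, if_pos (div_pos h' (by push_cast; exact hM))]
        push_cast
        rfl

theorem st_FKB (hom : ST_OM) (hk : ST_KLP) : ST_FKB := by
  intro r b hb
  have hb1 : (2 : ℝ) ≤ b := by exact_mod_cast hb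
  have hb0 : (0 : ℝ) < b := by linarith
  obtain ⟨C, hC, hCb⟩ := hk (FKBpsi r b) (FKB_smooth hom hb) (fun ξ hξ => FKB_far hom hb hξ)
  set C1 : ℝ := (1 + (b : ℝ)) ^ 2 * (b : ℝ) ^ (r - 1) with hC1
  have hC10 : 0 < C1 := by positivity
  refine ⟨C + C1, by positivity, ?_⟩
  intro j t
  have hev : 0 < ev b j t := by
    unfold ev
    positivity
  have hpw : 0 < (b : ℝ) ^ ((1 - r) * j) := by positivity
  rcases j with _ | _ | j
  · -- `j = 0`
    have h0 : fk r b 0 t = 0 := by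
      unfold fk
      refine Finset.sum_eq_zero fun k _ => ?_
      have : dkc b 0 k = 0 := by
        unfold dkc
        rw [if_pos rfl]
      rw [this]
      simp
    rw [h0, norm_zero]
    positivity
  · -- `j = 1`
    have h0 : fk r b (0 + 1) t = 1 := by
      unfold fk
      have hd : ∀ k : ℤ, dkc b (0 + 1) k = om (k : ℝ) := by
        intro k
        unfold dkc
        rw [if_neg (by omega), if_pos rfl]
      rw [Finset.sum_eq_single 0]
      · rw [hd]
        have h1 : om ((0 : ℤ) : ℝ) = 1 := hom.2.1 _ (by simp)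
        rw [h1]
        unfold mult
        simp
      · intro k _ hk0
        have h1 : om (k : ℝ) = 0 := by
          refine hom.2.2.1 _ ?_
          have : (1 : ℝ) ≤ |(k : ℝ)| := by
            have := Int.one_le_abs hk0
            exact_mod_cast this
          linarith
        rw [hd, h1]
        simp
      · intro h
        exfalso
        apply h
        rw [mem_Icc]
        constructor
        · have : (0 : ℤ) ≤ (b : ℤ) ^ (0 + 1) := by positivity
          omega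
        · positivity
    rw [h0, norm_one]
    have ht : ‖t‖ ≤ 1 / 2 := by
      have := AddCircle.norm_le_half_period (1 : ℝ) (x := t) one_ne_zero
      simpa using this
    have hev1 : ((1 + (b : ℝ)) ^ 2)⁻¹ ≤ ev b (0 + 1) t := by
      unfold ev
      rw [inv_le_inv₀ (by positivity) (by positivity)]
      refine pow_le_pow_left₀ (by positivity) ?_ 2
      have : (b : ℝ) ^ (0 + 1) * ‖t‖ ≤ b * 1 := by
        rw [zero_add, pow_one]
        refine mul_le_mul_of_nonneg_left (by linarith) hb0.le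
      linarith
    have hpow : (b : ℝ) ^ (r - 1) * (b : ℝ) ^ ((1 - r) * ((0 + 1 : ℕ) : ℝ)) = 1 := by
      rw [← Real.rpow_add hb0]
      push_cast
      rw [show r - 1 + (1 - r) * (1 : ℝ) = 0 by ring, Real.rpow_zero]
    calc (1 : ℝ) = C1 * (b : ℝ) ^ ((1 - r) * ((0 + 1 : ℕ) : ℝ)) * ((1 + (b : ℝ)) ^ 2)⁻¹ := by
          rw [hC1, mul_assoc ((1 + (b : ℝ)) ^ 2), hpow, mul_one, mul_inv_cancel₀ (by positivity)]
      _ ≤ C1 * (b : ℝ) ^ ((1 - r) * ((0 + 1 : ℕ) : ℝ)) * ev b (0 + 1) t :=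
          mul_le_mul_of_nonneg_left hev1 (by positivity)
      _ ≤ (C + C1) * (b : ℝ) ^ ((1 - r) * ((0 + 1 : ℕ) : ℝ)) * ev b (0 + 1) t := by
          refine mul_le_mul_of_nonneg_right ?_ hev.le
          exact mul_le_mul_of_nonneg_right (by linarith) hpw.le
  · -- `j ≥ 2`
    set M : ℕ := b ^ (j + 2) with hM
    have hM1 : 1 ≤ M := Nat.one_le_pow _ _ (by omega)
    have hMr : ((M : ℕ) : ℝ) = (b : ℝ) ^ (j + 2) := by rw [hM]; push_cast; rfl
    have hMz : ((M : ℕ) : ℤ) = (b : ℤ) ^ (j + 2) := by rw [hM]; push_cast; rfl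
    have hM0 : (0 : ℝ) < (b : ℝ) ^ (j + 2) := by positivity
    have h1 : fk r b (j + 1 + 1) t = ((((b : ℝ) ^ (j + 2)) ^ (-r) : ℝ) : ℂ) *
        ∑ k ∈ Icc (-(M : ℤ)) (M : ℤ), FKBpsi r b ((k : ℝ) / M) * (fourier k t : ℂ) := by
      unfold fk
      rw [Finset.mul_sum, hMz]
      refine Finset.sum_congr rfl fun k _ => ?_
      rw [← mul_assoc]
      congr 1
      exact FKB_mult hb j k
    have h2 := (hCb M t t hM1).1
    rw [h1, norm_mul, Complex.norm_real, Real.norm_eq_abs,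
      abs_of_pos (Real.rpow_pos_of_pos hM0 _)]
    have hev' : ((1 + (M : ℝ) * ‖t‖) ^ 2)⁻¹ = ev b (j + 1 + 1) t := by
      unfold ev
      rw [hMr]
    rw [hev'] at h2
    have hpow : ((b : ℝ) ^ (j + 2)) ^ (-r) * (M : ℝ) =
        (b : ℝ) ^ ((1 - r) * ((j + 1 + 1 : ℕ) : ℝ)) := by
      rw [hMr, ← Real.rpow_natCast, ← Real.rpow_mul hb0.le, ← Real.rpow_add hb0]
      congr 1
      push_cast
      ring
    calc ((b : ℝ) ^ (j + 2)) ^ (-r) *
          ‖∑ k ∈ Icc (-(M : ℤ)) (M : ℤ), FKBpsi r b ((k : ℝ) / M) * (fourier k t : ℂ)‖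
        ≤ ((b : ℝ) ^ (j + 2)) ^ (-r) * (C * M * ev b (j + 1 + 1) t) :=
          mul_le_mul_of_nonneg_left h2 (by positivity)
      _ = C * (((b : ℝ) ^ (j + 2)) ^ (-r) * (M : ℝ)) * ev b (j + 1 + 1) t := by ring
      _ = C * (b : ℝ) ^ ((1 - r) * ((j + 1 + 1 : ℕ) : ℝ)) * ev b (j + 1 + 1) t := by rw [hpow]
      _ ≤ (C + C1) * (b : ℝ) ^ ((1 - r) * ((j + 1 + 1 : ℕ) : ℝ)) * ev b (j + 1 + 1) t := by
          refine mul_le_mul_of_nonneg_right ?_ hev.le
          exact mul_le_mul_of_nonneg_right (by linarith) hpw.le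

end Pool.Agent.Helper37.SU
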