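import Pool.Agent.Helper37.SU.Stmts

set_option autoImplicit false

/-! Existence of nets. -/

namespace Pool.Agent.Helper37.SU

open MeasureTheory Finset
open scoped ENNReal Classical

/-- The number with given digits. -/
def NETv (b : ℕ) (D : ℕ → ℕ) : ℕ → ℕ
  | 0 => 0
  | (j + 1) => b * NETv b D j + D j

theorem NETv_lt {b : ℕ} {D : ℕ → ℕ} (hD : ∀ k, D k < b) (j : ℕ) : NETv b D j < b ^ j := by
  induction j with
  | zero => simp [NETv]
  | succ j ih =>
    have h1 := hD j
    have h2 : b * (NETv b D j + 1) ≤ b * b ^ j := Nat.mul_le_mul_left b ih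
    have h3 : b ^ (j + 1) = b * b ^ j := by ring
    have h4 : b * (NETv b D j + 1) = b * NETv b D j + b := by ring
    simp only [NETv]
    omega

theorem NETv_div {b : ℕ} {D : ℕ → ℕ} (hb : 0 < b) (hD : ∀ k, D k < b) (j k : ℕ) :
    NETv b D (j + k) / b ^ k = NETv b D j := by
  induction k with
  | zero => simp
  | succ k ih =>
    rw [← add_assoc, NETv, pow_succ', ← Nat.div_div_eq_div_mul, Nat.mul_add_div hb,
      Nat.div_eq_of_lt (hD _), add_zero, ih]

theorem NETv_iff {b : ℕ} {D : ℕ → ℕ} (hb : 0 < b) (hD : ∀ k, D k < b) :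
    ∀ (j a : ℕ), a < b ^ j →
      (NETv b D j = a ↔ ∀ k < j, D k = a / b ^ (j - 1 - k) % b) := by
  intro j
  induction j with
  | zero =>
    intro a ha
    simp only [pow_zero, Nat.lt_one_iff] at ha
    subst ha
    simp [NETv]
  | succ j ih =>
    intro a ha
    have ha' : a / b < b ^ j := by
      rw [Nat.div_lt_iff_lt_mul hb]
      rwa [pow_succ] at ha
    have e : NETv b D (j + 1) = a ↔ NETv b D j = a / b ∧ D j = a % b := by
      simp only [NETv]
      constructor
      · intro h
        rw [← h, Nat.mul_add_div hb, Nat.div_eq_of_lt (hD _), add_zero, Nat.mul_add_mod,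
          Nat.mod_eq_of_lt (hD _)]
        exact ⟨rfl, rfl⟩
      · rintro ⟨h1, h2⟩
        rw [h1, h2]
        exact Nat.div_add_mod a b
    rw [e, ih (a / b) ha']
    constructor
    · rintro ⟨h1, h2⟩ k hk
      rcases Nat.lt_succ_iff_lt_or_eq.1 hk with hk | hk
      · rw [h1 k hk, Nat.div_div_eq_div_mul, ← pow_succ']
        have : j - 1 - k + 1 = j + 1 - 1 - k := by omega
        rw [this]
      · subst hk
        simpa using h2
    · intro h
      refine ⟨fun k hk => ?_, ?_⟩
      · rw [h k (by omega), Nat.div_div_eq_div_mul, ← pow_succ']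
        have : j - 1 - k + 1 = j + 1 - 1 - k := by omega
        rw [this]
      · have := h j (by omega)
        simpa using this

theorem NET_one {b d m : ℕ} (hb : 0 < b) {D : Fin (b ^ m) → Fin d → ℕ → ℕ}
    (hD : ∀ p i k, D p i k < b)
    (hN : ∀ s : Fin d → ℕ, ∑ i, s i = m → ∀ e : Fin d → ℕ → ℕ,
      (∀ i k, e i k < b) → ∃! p, ∀ i, ∀ k < s i, D p i k = e i k)
    (s a : Fin d → ℕ) (hs : ∑ i, s i = m) (ha : ∀ i, a i < b ^ s i) :
    (univ.filter (fun p => ∀ i, NETv b (D p i) (s i) = a i)).card = 1 := by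
  obtain ⟨p, hp, hu⟩ := hN s hs (fun i k => a i / b ^ (s i - 1 - k) % b)
    (fun i k => Nat.mod_lt _ hb)
  rw [Finset.card_eq_one]
  refine ⟨p, ?_⟩
  ext q
  rw [mem_filter, mem_singleton]
  have key : ∀ q, (∀ i, NETv b (D q i) (s i) = a i) ↔
      ∀ i, ∀ k < s i, D q i k = a i / b ^ (s i - 1 - k) % b := by
    intro q
    refine forall_congr' fun i => ?_
    exact NETv_iff hb (hD q i) (s i) (a i) (ha i)
  constructor
  · rintro ⟨_, h⟩
    exact hu q ((key q).1 h)
  · rintro rfl
    exact ⟨mem_univ _, (key q).2 hp⟩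

theorem st_NET (h1 : ST_NTA) (h2 : ST_IXB) : ST_NET := by
  intro b d m hbp hdb
  have hb : 0 < b := hbp.pos
  have hb2 : 2 ≤ b := hbp.two_le
  obtain ⟨D, hD, hN⟩ := h1 b d m hbp hdb
  obtain ⟨_, hx2, _, hx4, _⟩ := h2 b hb2
  refine ⟨fun p i => pt b m (NETv b (D p i) m), ?_⟩
  have hix : ∀ p i j, j ≤ m → ix b j (pt b m (NETv b (D p i) m)) = NETv b (D p i) j := by
    intro p i j hj
    obtain ⟨k, rfl⟩ : ∃ k, m = j + k := ⟨m - j, by omega⟩
    rw [hx2 j k, hx4 (j + k) _ (NETv_lt (hD p i) _), NETv_div hb (hD p i)]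
  intro B hB hB2
  have hBm : ∀ i, B.1 i ≤ m := fun i => le_trans
    (Finset.single_le_sum (f := B.1) (fun _ _ => Nat.zero_le _) (mem_univ i)) hB
  have hfil : (univ.filter (fun p => inB b B (fun i => pt b m (NETv b (D p i) m)))) =
      univ.filter (fun p => ∀ i, NETv b (D p i) (B.1 i) = B.2 i) := by
    refine Finset.filter_congr fun p _ => ?_
    unfold inB
    refine forall_congr' fun i => ?_
    rw [hix p i _ (hBm i)]
  rw [hfil]
  rcases hB.eq_or_lt with he | hlt
  · rw [he, Nat.sub_self, pow_zero]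
    exact NET_one hb hD hN B.1 B.2 he hB2
  · rcases Nat.eq_zero_or_pos d with hd | hd
    · subst hd
      simp
    · set i₀ : Fin d := ⟨0, hd⟩ with hi₀
      set r := m - ∑ i, B.1 i with hr
      set s' : Fin d → ℕ := Function.update B.1 i₀ (B.1 i₀ + r) with hs'
      have hs'0 : s' i₀ = B.1 i₀ + r := by rw [hs', Function.update_self]
      have hs'n : ∀ i, i ≠ i₀ → s' i = B.1 i := fun i hi => by
        rw [hs', Function.update_of_ne hi]
      have hsum : ∑ i, s' i = m := by
        have e1 : ∑ i, s' i = s' i₀ + ∑ i ∈ univ.erase i₀, s' i :=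
          (Finset.add_sum_erase _ _ (mem_univ i₀)).symm
        have e2 : ∑ i, B.1 i = B.1 i₀ + ∑ i ∈ univ.erase i₀, B.1 i :=
          (Finset.add_sum_erase _ _ (mem_univ i₀)).symm
        have e3 : ∑ i ∈ univ.erase i₀, s' i = ∑ i ∈ univ.erase i₀, B.1 i :=
          Finset.sum_congr rfl fun i hi => hs'n i (Finset.ne_of_mem_erase hi)
        rw [e1, hs'0, e3]
        omega
      have hbr : 0 < b ^ r := pow_pos hb r
      rw [Finset.card_eq_sum_card_fiberwise (t := range (b ^ r))
        (f := fun p => NETv b (D p i₀) (s' i₀) % b ^ r)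
        (fun p _ => Finset.mem_coe.2 (mem_range.2 (Nat.mod_lt _ hbr)))]
      have hone : ∀ c ∈ range (b ^ r),
          ((univ.filter (fun p => ∀ i, NETv b (D p i) (B.1 i) = B.2 i)).filter
            (fun p => NETv b (D p i₀) (s' i₀) % b ^ r = c)).card = 1 := by
        intro c hc
        rw [mem_range] at hc
        set a' : Fin d → ℕ := Function.update B.2 i₀ (B.2 i₀ * b ^ r + c) with ha'
        have ha'0 : a' i₀ = B.2 i₀ * b ^ r + c := by rw [ha', Function.update_self]
        have ha'n : ∀ i, i ≠ i₀ → a' i = B.2 i := fun i hi => by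
          rw [ha', Function.update_of_ne hi]
        have hlt' : ∀ i, a' i < b ^ s' i := by
          intro i
          by_cases hi : i = i₀
          · rw [hi, ha'0, hs'0, pow_add]
            have h3 := hB2 i₀
            have h4 : (B.2 i₀ + 1) * b ^ r ≤ b ^ B.1 i₀ * b ^ r := Nat.mul_le_mul_right _ h3
            have h5 : (B.2 i₀ + 1) * b ^ r = B.2 i₀ * b ^ r + b ^ r := by ring
            omega
          · rw [ha'n i hi, hs'n i hi]
            exact hB2 i
        rw [← NET_one hb hD hN s' a' hsum hlt', Finset.filter_filter]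
        congr 1
        refine Finset.filter_congr fun p _ => ?_
        have hdiv : NETv b (D p i₀) (s' i₀) / b ^ r = NETv b (D p i₀) (B.1 i₀) := by
          rw [hs'0]
          exact NETv_div hb (hD p i₀) _ _
        constructor
        · rintro ⟨h3, h4⟩ i
          by_cases hi : i = i₀
          · rw [hi, ha'0, ← h3 i₀, ← hdiv, ← h4, mul_comm]
            exact (Nat.div_add_mod _ _).symm
          · rw [ha'n i hi, hs'n i hi]
            exact h3 i
        · intro h3
          have h4 := h3 i₀
          rw [ha'0] at h4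
          refine ⟨fun i => ?_, ?_⟩
          · by_cases hi : i = i₀
            · rw [hi, ← hdiv, h4, mul_comm, Nat.mul_add_div hbr, Nat.div_eq_of_lt hc, add_zero]
            · have := h3 i
              rwa [ha'n i hi, hs'n i hi] at this
          · rw [h4, mul_comm, Nat.mul_add_mod, Nat.mod_eq_of_lt hc]
      rw [Finset.sum_congr rfl hone]
      simp

end Pool.Agent.Helper37.SU
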