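import Pool.Agent.Helper37.SU.Stmts

set_option autoImplicit false

/-! The second moment of the degree over the net, indicators. -/

namespace Pool.Agent.Helper37.SU

open MeasureTheory Finset
open scoped ENNReal Classical

theorem TL_fr (t : UnitAddCircle) : 0 ≤ fr t ∧ fr t < 1 := by
  have h := (AddCircle.equivIco (1 : ℝ) 0 t).2
  rw [Set.mem_Ico] at h
  unfold fr
  exact ⟨h.1, by linarith [h.2]⟩

theorem TL_ix_lt {b : ℕ} (hb : 0 < b) (j : ℕ) (t : UnitAddCircle) : ix b j t < b ^ j := by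
  have hbj : (0 : ℝ) < (b : ℝ) ^ j := by positivity
  obtain ⟨h1, h2⟩ := TL_fr t
  unfold ix
  rw [Nat.floor_lt (by positivity)]
  push_cast
  nlinarith

theorem TL_ix_div {b : ℕ} (hb : 0 < b) (i j : ℕ) (t : UnitAddCircle) :
    ix b i t = ix b (i + j) t / b ^ j := by
  have hbj : (0 : ℝ) < (b : ℝ) ^ j := by positivity
  unfold ix
  rw [← Nat.floor_div_natCast]
  congr 1
  push_cast
  rw [pow_add]
  field_simp

theorem TL_deg {b d l : ℕ} (t : TT d) (S : Finset (Bo d)) (hS : S ⊆ lev b d l) :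
    (S.filter (fun B => inB b B t)).card ≤ (shp d l).card := by
  refine Finset.card_le_card_of_injOn Prod.fst ?_ ?_
  · intro B hB
    have hB' := (mem_filter.1 (Finset.mem_coe.1 hB)).1
    exact Finset.mem_coe.2 (mem_shp.2 (mem_lev.1 (hS hB')).1)
  · intro B hB B' hB' h
    have h1 := (mem_filter.1 (Finset.mem_coe.1 hB)).2
    have h2 := (mem_filter.1 (Finset.mem_coe.1 hB')).2
    refine Prod.ext h ?_
    funext i
    rw [← h1 i, ← h2 i, h]

theorem TL_count {b d m : ℕ} (x : Fin (b ^ m) → TT d) (S : Finset (Bo d))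
    (F : Finset (Fin (b ^ m))) :
    ∑ p ∈ F, (S.filter (fun B => inB b B (x p))).card =
      ∑ B ∈ S, (F.filter (fun p => inB b B (x p))).card := by
  simp_rw [Finset.card_filter]
  exact Finset.sum_comm

theorem TL_shape {b d m : ℕ} (hb : 0 < b) (x : Fin (b ^ m) → TT d) (F : Finset (Fin (b ^ m)))
    (s : Fin d → ℕ) :
    ∑ a ∈ gr b s, ((F.filter (fun p => inB b (s, a) (x p))).card : ℝ) ^ 2 =
      ∑ p ∈ F, ((F.filter (fun p' => ∀ i, ix b (s i) (x p' i) =
        ix b (s i) (x p i))).card : ℝ) := by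
  set φ : Fin (b ^ m) → (Fin d → ℕ) := fun p i => ix b (s i) (x p i) with hφ
  have hmap : ∀ p ∈ F, φ p ∈ gr b s := fun p _ => mem_gr.2 fun i => TL_ix_lt hb _ _
  rw [← Finset.sum_fiberwise_of_maps_to hmap]
  refine Finset.sum_congr rfl fun a _ => ?_
  have e : F.filter (fun p => inB b (s, a) (x p)) = F.filter (fun p => φ p = a) := by
    refine Finset.filter_congr fun p _ => ?_
    unfold inB
    rw [funext_iff]
  rw [e, sq]
  have h : ∀ p ∈ F.filter (fun p => φ p = a),
      ((F.filter (fun p' => ∀ i, ix b (s i) (x p' i) = ix b (s i) (x p i))).card : ℝ) =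
        ((F.filter (fun p => φ p = a)).card : ℝ) := by
    intro p hp
    have hp' := (mem_filter.1 hp).2
    congr 2
    refine Finset.filter_congr fun q _ => ?_
    rw [← hp', funext_iff]
  rw [Finset.sum_congr rfl h, Finset.sum_const, nsmul_eq_mul]

theorem TL_sq {b d m l : ℕ} (hb : 0 < b) (x : Fin (b ^ m) → TT d) (F : Finset (Fin (b ^ m)))
    (S : Finset (Bo d)) (hS : S ⊆ lev b d l) :
    ∑ B ∈ S, ((F.filter (fun p => inB b B (x p))).card : ℝ) ^ 2 ≤
      ∑ s ∈ shp d l, ∑ p ∈ F, ((F.filter (fun p' => ∀ i, ix b (s i) (x p' i) =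
        ix b (s i) (x p i))).card : ℝ) := by
  calc ∑ B ∈ S, ((F.filter (fun p => inB b B (x p))).card : ℝ) ^ 2
      ≤ ∑ B ∈ lev b d l, ((F.filter (fun p => inB b B (x p))).card : ℝ) ^ 2 :=
        Finset.sum_le_sum_of_subset_of_nonneg hS fun _ _ _ => by positivity
    _ = _ := by
        rw [sum_lev]
        exact Finset.sum_congr rfl fun s _ => TL_shape hb x F s

/-- One box of level at least `m` contains at most one point. -/
theorem TL_high {b d m l : ℕ} (hb : 0 < b) {x : Fin (b ^ m) → TT d} (hx : IsNet b d m x)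
    (hml : m ≤ l) {B : Bo d} (hB : B ∈ lev b d l) :
    (univ.filter (fun p => inB b B (x p))).card ≤ 1 := by
  obtain ⟨h1, h2⟩ := mem_lev.1 hB
  obtain ⟨s', hs', hs⟩ : ∃ s' : Fin d → ℕ, (∀ i, s' i ≤ B.1 i) ∧ ∑ i, s' i = m := by
    have key : ∀ k : ℕ, k ≤ l → ∃ s' : Fin d → ℕ, (∀ i, s' i ≤ B.1 i) ∧ ∑ i, s' i = l - k := by
      intro k
      induction k with
      | zero => intro _; exact ⟨B.1, fun i => le_rfl, by rw [h1]; rfl⟩
      | succ k ih =>
        intro hk
        obtain ⟨s', hs', hs⟩ := ih (by omega)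
        have hpos : 0 < ∑ i, s' i := by rw [hs]; omega
        obtain ⟨i, _, hi⟩ := Finset.exists_ne_zero_of_sum_ne_zero hpos.ne'
        refine ⟨Function.update s' i (s' i - 1), ?_, ?_⟩
        · intro j
          by_cases hj : j = i
          · subst hj
            rw [Function.update_self]
            exact le_trans (Nat.sub_le _ _) (hs' _)
          · rw [Function.update_of_ne hj]
            exact hs' j
        · have e1 := Finset.add_sum_erase univ s' (mem_univ i)
          have e2 := Finset.add_sum_erase univ (Function.update s' i (s' i - 1)) (mem_univ i)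
          rw [Function.update_self] at e2
          have e3 : ∑ j ∈ univ.erase i, Function.update s' i (s' i - 1) j =
              ∑ j ∈ univ.erase i, s' j := Finset.sum_congr rfl fun j hj => by
            rw [Function.update_of_ne (Finset.ne_of_mem_erase hj)]
          rw [e3] at e2
          omega
    obtain ⟨s', a, c⟩ := key (l - m) (by omega)
    exact ⟨s', a, by rw [c]; omega⟩
  have hn := hx (s', fun i => B.2 i / b ^ (B.1 i - s' i)) (le_of_eq hs) (by
    intro i
    have : B.1 i = s' i + (B.1 i - s' i) := by have := hs' i; omega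
    show B.2 i / b ^ (B.1 i - s' i) < b ^ s' i
    rw [Nat.div_lt_iff_lt_mul (pow_pos hb _), ← pow_add, ← this]
    exact h2 i)
  rw [show ∑ i, (s', fun i => B.2 i / b ^ (B.1 i - s' i)).1 i = m from hs, Nat.sub_self,
    pow_zero] at hn
  rw [← hn]
  refine Finset.card_le_card fun p hp => ?_
  rw [mem_filter] at hp ⊢
  refine ⟨mem_univ _, fun i => ?_⟩
  have h3 := hp.2 i
  show ix b (s' i) (x p i) = B.2 i / b ^ (B.1 i - s' i)
  rw [TL_ix_div hb (s' i) (B.1 i - s' i), show s' i + (B.1 i - s' i) = B.1 i by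
    have := hs' i; omega, h3]

theorem TL_level {b d m l : ℕ} (h : ST_SHR) (hb : 2 ≤ b) (hd : 1 ≤ d)
    (x : Fin (b ^ m) → TT d) (hx : IsNet b d m x) (hlm : l ≤ m) (S : Finset (Bo d))
    (hS : S ⊆ lev b d l) (A : ℝ) (hA : 1 < A) (i : ℕ) (F : Finset (Fin (b ^ m)))
    (hF : F.Nonempty) (hFd : ∀ p ∈ F, 2 ^ i ≤ (S.filter (fun B => inB b B (x p))).card) :
    (4 : ℝ) ^ i * F.card ≤ S.card * (((d : ℝ) - 1) * A * (shp d l).card +
      (b : ℝ) ^ (m - l) * (((m - l : ℕ) : ℝ) * (Real.log F.card / Real.log A)) ^ (d - 1)) := by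
  have hb0 : 0 < b := by omega
  have h1 := h b d m l x F A hb hd hlm hx hA hF
  set Wd := (((d : ℝ) - 1) * A * (shp d l).card +
      (b : ℝ) ^ (m - l) * (((m - l : ℕ) : ℝ) * (Real.log F.card / Real.log A)) ^ (d - 1)) with hW
  have h2 := (TL_sq hb0 x F S hS).trans h1
  have hFpos : (0 : ℝ) < F.card := by exact_mod_cast hF.card_pos
  have h3 : (2 : ℝ) ^ i * F.card ≤ ∑ B ∈ S, ((F.filter (fun p => inB b B (x p))).card : ℝ) := by
    have e : ((∑ p ∈ F, (S.filter (fun B => inB b B (x p))).card : ℕ) : ℝ) =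
        ∑ B ∈ S, ((F.filter (fun p => inB b B (x p))).card : ℝ) := by
      rw [TL_count x S F]
      push_cast
      rfl
    rw [← e]
    have : F.card * 2 ^ i ≤ ∑ p ∈ F, (S.filter (fun B => inB b B (x p))).card := by
      rw [← smul_eq_mul, ← Finset.sum_const]
      exact Finset.sum_le_sum hFd
    have h4 : ((F.card * 2 ^ i : ℕ) : ℝ) ≤
      ((∑ p ∈ F, (S.filter (fun B => inB b B (x p))).card : ℕ) : ℝ) := by exact_mod_cast this
    rw [mul_comm]
    push_cast at h4 ⊢
    exact h4
  have h5 : (∑ B ∈ S, ((F.filter (fun p => inB b B (x p))).card : ℝ)) ^ 2 ≤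
      S.card * ∑ B ∈ S, ((F.filter (fun p => inB b B (x p))).card : ℝ) ^ 2 :=
    sq_sum_le_card_mul_sum_sq
  have h6 : ((2 : ℝ) ^ i * F.card) ^ 2 ≤ S.card * (Wd * F.card) := by
    calc ((2 : ℝ) ^ i * F.card) ^ 2 ≤
        (∑ B ∈ S, ((F.filter (fun p => inB b B (x p))).card : ℝ)) ^ 2 := by
          exact pow_le_pow_left₀ (by positivity) h3 2
      _ ≤ _ := h5
      _ ≤ _ := mul_le_mul_of_nonneg_left h2 (by positivity)
  have h7 : ((2 : ℝ) ^ i * F.card) ^ 2 = (4 : ℝ) ^ i * F.card * F.card := by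
    have : (4 : ℝ) = 2 ^ 2 := by norm_num
    rw [this, ← pow_mul, mul_comm 2 i, pow_mul]
    ring
  rw [h7] at h6
  have h8 : (4 : ℝ) ^ i * F.card * F.card ≤ (S.card * Wd) * F.card := by linarith
  exact le_of_mul_le_mul_right h8 hFpos

theorem TL_layers {b d m l : ℕ} (x : Fin (b ^ m) → TT d) (S : Finset (Bo d))
    (hS : S ⊆ lev b d l) (W : ℝ) (hW0 : 0 ≤ W)
    (hW : ∀ (i : ℕ) (F : Finset (Fin (b ^ m))), F.Nonempty →
      (∀ p ∈ F, 2 ^ i ≤ (S.filter (fun B => inB b B (x p))).card) → (4 : ℝ) ^ i * F.card ≤ W) :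
    ∑ p, ((S.filter (fun B => inB b B (x p))).card : ℝ) ^ 2 ≤
      4 * ((Nat.log 2 (shp d l).card : ℝ) + 1) * W := by
  set dg : Fin (b ^ m) → ℕ := fun p => (S.filter (fun B => inB b B (x p))).card with hdg
  have hle : ∀ p, dg p ≤ (shp d l).card := fun p => TL_deg (x p) S hS
  set P := (univ : Finset (Fin (b ^ m))).filter (fun p => dg p ≠ 0) with hP
  have e1 : ∑ p, ((dg p : ℕ) : ℝ) ^ 2 = ∑ p ∈ P, ((dg p : ℕ) : ℝ) ^ 2 := by
    rw [hP, Finset.sum_filter]
    refine Finset.sum_congr rfl fun p _ => ?_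
    by_cases h : dg p ≠ 0
    · rw [if_pos h]
    · rw [if_neg h]
      push Not at h
      rw [h]
      simp
  have hmap : ∀ p ∈ P, Nat.log 2 (dg p) ∈ range (Nat.log 2 (shp d l).card + 1) := by
    intro p _
    rw [mem_range, Nat.lt_succ_iff]
    exact Nat.log_mono_right (hle p)
  have e2 : ∑ p ∈ P, ((dg p : ℕ) : ℝ) ^ 2 =
      ∑ i ∈ range (Nat.log 2 (shp d l).card + 1),
        ∑ p ∈ P.filter (fun p => Nat.log 2 (dg p) = i), ((dg p : ℕ) : ℝ) ^ 2 :=
    (Finset.sum_fiberwise_of_maps_to hmap _).symm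
  change ∑ p, ((dg p : ℕ) : ℝ) ^ 2 ≤ _
  rw [e1, e2]
  have h3 : ∀ i ∈ range (Nat.log 2 (shp d l).card + 1),
      ∑ p ∈ P.filter (fun p => Nat.log 2 (dg p) = i), ((dg p : ℕ) : ℝ) ^ 2 ≤ 4 * W := by
    intro i _
    rcases (P.filter (fun p => Nat.log 2 (dg p) = i)).eq_empty_or_nonempty with he | hne
    · rw [he, Finset.sum_empty]
      positivity
    · have h4 := hW i _ hne (by
        intro p hp
        obtain ⟨hp1, hp2⟩ := mem_filter.1 hp
        have hp3 := (mem_filter.1 hp1).2
        rw [← hp2]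
        exact Nat.pow_log_le_self 2 hp3)
      calc ∑ p ∈ P.filter (fun p => Nat.log 2 (dg p) = i), ((dg p : ℕ) : ℝ) ^ 2
          ≤ ∑ p ∈ P.filter (fun p => Nat.log 2 (dg p) = i), 4 * (4 : ℝ) ^ i := by
            refine Finset.sum_le_sum fun p hp => ?_
            obtain ⟨hp1, hp2⟩ := mem_filter.1 hp
            have h5 : dg p < 2 ^ (i + 1) := by
              rw [← hp2]
              exact Nat.lt_pow_succ_log_self (by norm_num) _
            have h6 : ((dg p : ℕ) : ℝ) ≤ 2 ^ (i + 1) := by exact_mod_cast h5.le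
            calc ((dg p : ℕ) : ℝ) ^ 2 ≤ ((2 : ℝ) ^ (i + 1)) ^ 2 :=
                  pow_le_pow_left₀ (by positivity) h6 2
              _ = 4 * (4 : ℝ) ^ i := by
                  have : (4 : ℝ) = 2 ^ 2 := by norm_num
                  rw [this, ← pow_mul, ← pow_mul, ← pow_add]
                  congr 1
                  ring
        _ = 4 * ((4 : ℝ) ^ i * (P.filter (fun p => Nat.log 2 (dg p) = i)).card) := by
            rw [Finset.sum_const, nsmul_eq_mul]
            ring
        _ ≤ 4 * W := by linarith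
  calc ∑ i ∈ range (Nat.log 2 (shp d l).card + 1),
        ∑ p ∈ P.filter (fun p => Nat.log 2 (dg p) = i), ((dg p : ℕ) : ℝ) ^ 2
      ≤ ∑ i ∈ range (Nat.log 2 (shp d l).card + 1), 4 * W := Finset.sum_le_sum h3
    _ = 4 * ((Nat.log 2 (shp d l).card : ℝ) + 1) * W := by
        rw [Finset.sum_const, card_range, nsmul_eq_mul]
        push_cast
        ring

theorem st_TL (h : ST_SHR) : ST_TL := by
  intro b d ε C₁ hb hd hε hC₁
  have hb0 : 0 < b := by omega
  have hb1 : (1 : ℝ) < b := by exact_mod_cast (by omega : 1 < b)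
  -- constants
  set δ : ℝ := ε / (4 * d) with hδ
  have hdr : (1 : ℝ) ≤ d := by exact_mod_cast hd
  have hδ0 : 0 < δ := by positivity
  set cN : ℝ := (C₁ + 1) ^ (d - 1) with hcN
  have hcN0 : 0 < cN := by positivity
  have hcN1 : 1 ≤ cN := one_le_pow₀ (by linarith)
  set cJ : ℝ := 1 + 2 * (cN ^ δ / δ) with hcJ
  have hcJ0 : 0 < cJ := by positivity
  set cT : ℝ := (C₁ / Real.log 2 * (1 / δ) * (8 * C₁ / ε)) ^ (d - 1) with hcT
  have hlog2 : 0 < Real.log 2 := Real.log_pos (by norm_num)
  have hcT0 : 0 ≤ cT := by positivity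
  set cW : ℝ := d * cN + cT with hcW
  have hcW0 : 0 < cW := by positivity
  refine ⟨cN + 4 * cJ * cW, by positivity, ?_⟩
  intro n m l x S hn hx hl hm hS hcard
  have hn1 : (1 : ℝ) < n := by exact_mod_cast (by omega : 1 < n)
  have hn0 : (0 : ℝ) < n := by linarith
  have hnε : 1 ≤ (n : ℝ) ^ ε := Real.one_le_rpow hn1.le hε.le
  have hbm : (0 : ℝ) < (b : ℝ) ^ m := by positivity
  have hbl : (0 : ℝ) < (b : ℝ) ^ l := by positivity
  set K : ℝ := (b : ℝ) ^ m / (b : ℝ) ^ l with hK
  have hK0 : 0 < K := by positivity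
  have hKn : K ≤ (n : ℝ) ^ C₁ := by
    rw [hK, div_le_iff₀ hbl]
    exact hm
  -- number of shapes
  have hN : ((shp d l).card : ℝ) ≤ cN * (n : ℝ) ^ (d - 1) := by
    have h1 : ((shp d l).card : ℝ) ≤ ((l : ℝ) + 1) ^ (d - 1) := by
      exact_mod_cast card_shp_le (d := d) (l := l) hd
    refine h1.trans ?_
    rw [hcN, ← mul_pow]
    refine pow_le_pow_left₀ (by positivity) ?_ _
    nlinarith
  have hnd : (0 : ℝ) < (n : ℝ) ^ (d - 1) := by positivity
  have hSc : (0 : ℝ) ≤ S.card := by positivity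
  rcases lt_or_ge m l with hlt | hge
  · -- high levels
    have h1 : ∑ p, ((S.filter (fun B => inB b B (x p))).card : ℝ) ^ 2 ≤
        ((shp d l).card : ℝ) * ∑ p, ((S.filter (fun B => inB b B (x p))).card : ℝ) := by
      rw [Finset.mul_sum]
      refine Finset.sum_le_sum fun p _ => ?_
      rw [sq]
      refine mul_le_mul_of_nonneg_right ?_ (by positivity)
      exact_mod_cast TL_deg (x p) S hS
    have h2 : ∑ p, ((S.filter (fun B => inB b B (x p))).card : ℝ) ≤ S.card := by
      have h3 := TL_count x S univ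
      have h4 : ∑ B ∈ S, (univ.filter (fun p => inB b B (x p))).card ≤ S.card := by
        calc ∑ B ∈ S, (univ.filter (fun p => inB b B (x p))).card ≤ ∑ B ∈ S, 1 :=
              Finset.sum_le_sum fun B hB => TL_high hb0 hx hlt.le (hS hB)
          _ = S.card := by simp
      rw [← h3] at h4
      exact_mod_cast h4
    calc ∑ p, ((S.filter (fun B => inB b B (x p))).card : ℝ) ^ 2
        ≤ ((shp d l).card : ℝ) * S.card := h1.trans (mul_le_mul_of_nonneg_left h2 (by positivity))
      _ ≤ (cN * (n : ℝ) ^ (d - 1)) * S.card := mul_le_mul_of_nonneg_right hN hSc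
      _ ≤ (cN + 4 * cJ * cW) * (n : ℝ) ^ ε * ((n : ℝ) ^ (d - 1) + K) * S.card := by
          refine mul_le_mul_of_nonneg_right ?_ hSc
          refine mul_le_mul ?_ (by linarith) hnd.le (by positivity)
          calc cN ≤ cN + 4 * cJ * cW := by
                have : 0 ≤ 4 * cJ * cW := by positivity
                linarith
            _ = (cN + 4 * cJ * cW) * 1 := by ring
            _ ≤ _ := mul_le_mul_of_nonneg_left hnε (by positivity)
  · -- low levels
    have hKe : K = (b : ℝ) ^ (m - l) := by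
      rw [hK, div_eq_iff hbl.ne', ← pow_add]
      congr 1
      omega
    -- sum of degrees
    have hsum : ∑ p, ((S.filter (fun B => inB b B (x p))).card : ℝ) = K * S.card := by
      have h3 := TL_count x S univ
      have h4 : ∑ B ∈ S, (univ.filter (fun p => inB b B (x p))).card = S.card * b ^ (m - l) := by
        rw [← smul_eq_mul, ← Finset.sum_const]
        refine Finset.sum_congr rfl fun B hB => ?_
        obtain ⟨e1, e2⟩ := mem_lev.1 (hS hB)
        have := hx B (by omega) e2
        rw [this, e1]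
      rw [h4] at h3
      rw [hKe, mul_comm]
      exact_mod_cast h3
    set A : ℝ := (n : ℝ) ^ (ε / 4) with hA
    have hA1 : 1 < A := Real.one_lt_rpow hn1 (by positivity)
    have hlogn : 0 < Real.log n := Real.log_pos hn1
    have hlogA : Real.log A = ε / 4 * Real.log n := by rw [hA, Real.log_rpow hn0]
    have hlogA0 : 0 < Real.log A := Real.log_pos hA1
    -- the bound for `m - l`
    have hml : ((m - l : ℕ) : ℝ) ≤ C₁ / Real.log 2 * Real.log n := by
      have h5 : ((m - l : ℕ) : ℝ) * Real.log b ≤ C₁ * Real.log n := by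
        have h6 : Real.log ((b : ℝ) ^ (m - l)) ≤ Real.log ((n : ℝ) ^ C₁) := by
          refine Real.log_le_log (by positivity) ?_
          rw [← hKe]
          exact hKn
        rwa [Real.log_pow, Real.log_rpow hn0] at h6
      have h7 : Real.log 2 ≤ Real.log b :=
        Real.log_le_log (by norm_num) (by exact_mod_cast hb)
      have h8 : ((m - l : ℕ) : ℝ) * Real.log 2 ≤ C₁ * Real.log n :=
        le_trans (mul_le_mul_of_nonneg_left h7 (by positivity)) h5
      rw [div_mul_eq_mul_div, le_div_iff₀ hlog2]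
      exact h8
    have hlogle : Real.log n ≤ (n : ℝ) ^ δ / δ := Real.log_le_rpow_div hn0.le hδ0
    have hnδ : ((n : ℝ) ^ δ) ^ (d - 1) ≤ (n : ℝ) ^ (ε / 4) := by
      rw [← Real.rpow_natCast, ← Real.rpow_mul hn0.le]
      refine Real.rpow_le_rpow_of_exponent_le hn1.le ?_
      have h9 : ((d - 1 : ℕ) : ℝ) ≤ d := by exact_mod_cast Nat.sub_le d 1
      calc δ * ((d - 1 : ℕ) : ℝ) ≤ δ * d := mul_le_mul_of_nonneg_left h9 hδ0.le
        _ = ε / 4 := by rw [hδ]; field_simp
    -- bound for all levels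
    have hWb : ∀ (i : ℕ) (F : Finset (Fin (b ^ m))), F.Nonempty →
        (∀ p ∈ F, 2 ^ i ≤ (S.filter (fun B => inB b B (x p))).card) → (4 : ℝ) ^ i * F.card ≤
          S.card * (cW * (n : ℝ) ^ (ε / 4) * ((n : ℝ) ^ (d - 1) + K)) := by
      intro i F hF hFd
      have h10 := TL_level h hb hd x hx hge S hS A hA1 i F hF hFd
      refine h10.trans (mul_le_mul_of_nonneg_left ?_ hSc)
      have hFc1 : (1 : ℝ) ≤ F.card := by exact_mod_cast hF.card_pos
      have hFc : (F.card : ℝ) ≤ (n : ℝ) ^ (2 * C₁) := by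
        have h11 : (F.card : ℝ) ≤ ∑ p, ((S.filter (fun B => inB b B (x p))).card : ℝ) := by
          calc (F.card : ℝ) = ∑ p ∈ F, (1 : ℝ) := by simp
            _ ≤ ∑ p ∈ F, ((S.filter (fun B => inB b B (x p))).card : ℝ) := by
                refine Finset.sum_le_sum fun p hp => ?_
                have := hFd p hp
                have h12 : 1 ≤ 2 ^ i := Nat.one_le_two_pow
                exact_mod_cast h12.trans this
            _ ≤ _ := Finset.sum_le_sum_of_subset_of_nonneg (subset_univ _)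
                fun _ _ _ => by positivity
        rw [hsum] at h11
        refine h11.trans ?_
        rw [two_mul, Real.rpow_add hn0]
        exact mul_le_mul hKn hcard (by positivity) (by positivity)
      have hlogF : Real.log F.card / Real.log A ≤ 8 * C₁ / ε := by
        rw [div_le_iff₀ hlogA0, hlogA]
        have h13 : Real.log F.card ≤ 2 * C₁ * Real.log n := by
          rw [← Real.log_rpow hn0]
          exact Real.log_le_log (by linarith) hFc
        refine h13.trans (le_of_eq ?_)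
        field_simp
        ring
      have hlogF0 : 0 ≤ Real.log F.card / Real.log A :=
        div_nonneg (Real.log_nonneg hFc1) hlogA0.le
      have ht1 : (((m - l : ℕ) : ℝ) * (Real.log F.card / Real.log A)) ^ (d - 1) ≤
          cT * (n : ℝ) ^ (ε / 4) := by
        calc (((m - l : ℕ) : ℝ) * (Real.log F.card / Real.log A)) ^ (d - 1)
            ≤ ((C₁ / Real.log 2 * ((n : ℝ) ^ δ / δ)) * (8 * C₁ / ε)) ^ (d - 1) := by
              refine pow_le_pow_left₀ (by positivity) ?_ _
              refine mul_le_mul ?_ hlogF hlogF0 (by positivity)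
              exact hml.trans (mul_le_mul_of_nonneg_left hlogle (by positivity))
          _ = cT * ((n : ℝ) ^ δ) ^ (d - 1) := by
              rw [hcT, ← mul_pow]
              congr 1
              ring
          _ ≤ cT * (n : ℝ) ^ (ε / 4) := mul_le_mul_of_nonneg_left hnδ hcT0
      have ht2 : ((d : ℝ) - 1) * A * (shp d l).card ≤
          d * cN * (n : ℝ) ^ (ε / 4) * (n : ℝ) ^ (d - 1) := by
        calc ((d : ℝ) - 1) * A * (shp d l).card ≤ d * A * (cN * (n : ℝ) ^ (d - 1)) := by
              refine mul_le_mul ?_ hN (by positivity) (by positivity)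
              exact mul_le_mul_of_nonneg_right (by linarith) (by positivity)
          _ = _ := by rw [hA]; ring
      have ht3 : (b : ℝ) ^ (m - l) * (((m - l : ℕ) : ℝ) *
          (Real.log F.card / Real.log A)) ^ (d - 1) ≤ cT * (n : ℝ) ^ (ε / 4) * K := by
        rw [← hKe, mul_comm]
        exact mul_le_mul_of_nonneg_right ht1 hK0.le
      have hpos : (0 : ℝ) ≤ (n : ℝ) ^ (ε / 4) := by positivity
      calc ((d : ℝ) - 1) * A * (shp d l).card + (b : ℝ) ^ (m - l) *
            (((m - l : ℕ) : ℝ) * (Real.log F.card / Real.log A)) ^ (d - 1)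
          ≤ d * cN * (n : ℝ) ^ (ε / 4) * (n : ℝ) ^ (d - 1) + cT * (n : ℝ) ^ (ε / 4) * K :=
            add_le_add ht2 ht3
        _ ≤ cW * (n : ℝ) ^ (ε / 4) * ((n : ℝ) ^ (d - 1) + K) := by
            rw [hcW]
            have e1 : 0 ≤ d * cN * (n : ℝ) ^ (ε / 4) * K := by positivity
            have e2 : 0 ≤ cT * (n : ℝ) ^ (ε / 4) * (n : ℝ) ^ (d - 1) := by positivity
            nlinarith
    have hmain := TL_layers x S hS _ (by positivity) hWb
    have hJ : (Nat.log 2 (shp d l).card : ℝ) + 1 ≤ cJ * (n : ℝ) ^ (ε / 4) := by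
      have hn4 : 1 ≤ (n : ℝ) ^ (ε / 4) := Real.one_le_rpow hn1.le (by positivity)
      have h14 : (Nat.log 2 (shp d l).card : ℝ) ≤ 2 * (cN ^ δ / δ) * (n : ℝ) ^ (ε / 4) := by
        rcases Nat.eq_zero_or_pos (shp d l).card with h0 | h0
        · rw [h0]
          simp only [Nat.log_zero_right, Nat.cast_zero]
          positivity
        · have h15 : (Nat.log 2 (shp d l).card : ℝ) * Real.log 2 ≤
              Real.log (shp d l).card := by
            rw [← Real.log_pow]
            refine Real.log_le_log (by positivity) ?_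
            exact_mod_cast Nat.pow_log_le_self 2 h0.ne'
          have h16 : Real.log (shp d l).card ≤ ((shp d l).card : ℝ) ^ δ / δ :=
            Real.log_le_rpow_div (by positivity) hδ0
          have h17 : ((shp d l).card : ℝ) ^ δ ≤ cN ^ δ * (n : ℝ) ^ (ε / 4) := by
            calc ((shp d l).card : ℝ) ^ δ ≤ (cN * (n : ℝ) ^ (d - 1)) ^ δ :=
                  Real.rpow_le_rpow (by positivity) hN hδ0.le
              _ = cN ^ δ * ((n : ℝ) ^ (d - 1)) ^ δ := Real.mul_rpow hcN0.le hnd.le
              _ = cN ^ δ * ((n : ℝ) ^ δ) ^ (d - 1) := by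
                  congr 1
                  rw [← Real.rpow_natCast, ← Real.rpow_natCast, ← Real.rpow_mul hn0.le,
                    ← Real.rpow_mul hn0.le, mul_comm]
              _ ≤ _ := mul_le_mul_of_nonneg_left hnδ (by positivity)
          have h18 : (1 : ℝ) / 2 ≤ Real.log 2 := by
            have := Real.log_two_gt_d9
            linarith
          have h19 : (Nat.log 2 (shp d l).card : ℝ) * (1 / 2) ≤
              (cN ^ δ * (n : ℝ) ^ (ε / 4)) / δ := by
            calc (Nat.log 2 (shp d l).card : ℝ) * (1 / 2) ≤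
                (Nat.log 2 (shp d l).card : ℝ) * Real.log 2 :=
                  mul_le_mul_of_nonneg_left h18 (by positivity)
              _ ≤ _ := h15
              _ ≤ _ := h16
              _ ≤ _ := div_le_div_of_nonneg_right h17 hδ0.le
          have h20 : (cN ^ δ * (n : ℝ) ^ (ε / 4)) / δ = (cN ^ δ / δ) * (n : ℝ) ^ (ε / 4) := by
            ring
          rw [h20] at h19
          linarith
      rw [hcJ]
      nlinarith
    refine hmain.trans ?_
    have hnn : (n : ℝ) ^ (ε / 4) * (n : ℝ) ^ (ε / 4) ≤ (n : ℝ) ^ ε := by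
      rw [← Real.rpow_add hn0]
      exact Real.rpow_le_rpow_of_exponent_le hn1.le (by linarith)
    calc 4 * ((Nat.log 2 (shp d l).card : ℝ) + 1) *
          (S.card * (cW * (n : ℝ) ^ (ε / 4) * ((n : ℝ) ^ (d - 1) + K)))
        ≤ 4 * (cJ * (n : ℝ) ^ (ε / 4)) *
          (S.card * (cW * (n : ℝ) ^ (ε / 4) * ((n : ℝ) ^ (d - 1) + K))) := by
          refine mul_le_mul_of_nonneg_right ?_ (by positivity)
          linarith
      _ = (4 * cJ * cW * ((n : ℝ) ^ (d - 1) + K) * S.card) *
          ((n : ℝ) ^ (ε / 4) * (n : ℝ) ^ (ε / 4)) := by ring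
      _ ≤ (4 * cJ * cW * ((n : ℝ) ^ (d - 1) + K) * S.card) * (n : ℝ) ^ ε :=
          mul_le_mul_of_nonneg_left hnn (by positivity)
      _ = 4 * cJ * cW * (n : ℝ) ^ ε * ((n : ℝ) ^ (d - 1) + K) * S.card := by ring
      _ ≤ (cN + 4 * cJ * cW) * (n : ℝ) ^ ε * ((n : ℝ) ^ (d - 1) + K) * S.card := by
          have : 0 ≤ cN * (n : ℝ) ^ ε * ((n : ℝ) ^ (d - 1) + K) * S.card := by positivity
          nlinarith

end Pool.Agent.Helper37.SU
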